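import Pool.Agent.Helper24.AL.Final

set_option autoImplicit false

open Pool.Agent.Helper56.SW

namespace Pool.Agent.Results.MP_e188f1_nt.AlmostAllPairs

/-- For every modulus `c` and every `r ≥ 3` (`q = 2 r`), outside a set of at most `C c^(-ε/(2r)) φ(c)` products `a₁ a₂`
of units, `N_q ≤ C c^ε ((H₁H₂)^r/c³ + c^((2r-6)/3) H₂^(2r/3))` for all `1 ≤ H₁ ≤ H₂ ≤ K c`. In particular the bound asked
for by Q1 holds for `q = 6` in the whole range, and for `q ≥ 8` if `c^(2r+3) ≤ (H₁³ H₂)^r`. -/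
theorem result (r : ℕ) (K ε : ℝ) (hr : 3 ≤ r) (hK : 1 ≤ K) (hε : 0 < ε) :
    ∃ C : ℝ, 0 < C ∧ ∀ c : ℕ, 1 ≤ c →
      ∃ X : Finset (ZMod c)ˣ,
        (X.card : ℝ) ≤ C * (c : ℝ) ^ (-(ε / (2 * r))) * (Nat.totient c : ℝ) ∧
        ∀ a₁ a₂ : (ZMod c)ˣ, a₁ * a₂ ∉ X → ∀ H₁ H₂ : ℝ, 1 ≤ H₁ → H₁ ≤ H₂ → H₂ ≤ K * c →
          (Nq (2 * r) c a₁ a₂ H₁ H₂ : ℝ) ≤ C * (c : ℝ) ^ ε *
            ((H₁ * H₂) ^ r / (c : ℝ) ^ 3 +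
              (c : ℝ) ^ ((2 * (r : ℝ) - 6) / 3) * H₂ ^ (2 * (r : ℝ) / 3)) ∧
          (r = 3 ∨ (c : ℝ) ^ (2 * r + 3) ≤ (H₁ ^ 3 * H₂) ^ r →
            (Nq (2 * r) c a₁ a₂ H₁ H₂ : ℝ) ≤ C * (c : ℝ) ^ ε *
              (H₂ ^ (r - 1) + (H₁ * H₂) ^ r / (c : ℝ) ^ 3)) := by
  obtain ⟨C, hC, h⟩ := Pool.Agent.Helper24.AL.fin_END r K ε hr hK hε
  refine ⟨2 * C, by positivity, fun c hc => ?_⟩
  obtain ⟨X, hX, h2⟩ := h c hc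
  have hc0 : (0 : ℝ) < c := by exact_mod_cast hc
  refine ⟨X, hX.trans ?_, fun a₁ a₂ ha H₁ H₂ h1 h12 hKc => ?_⟩
  · refine mul_le_mul_of_nonneg_right ?_ (Nat.cast_nonneg _)
    refine mul_le_mul_of_nonneg_right ?_ (Real.rpow_nonneg hc0.le _)
    linarith
  · obtain ⟨h3, h4⟩ := h2 a₁ a₂ ha H₁ H₂ h1 h12 hKc
    refine ⟨h3.trans ?_, h4⟩
    have h5 : (0 : ℝ) ≤ (c : ℝ) ^ ε := Real.rpow_nonneg hc0.le _
    have h6 : (0 : ℝ) ≤ (H₁ * H₂) ^ r / (c : ℝ) ^ 3 +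
        (c : ℝ) ^ ((2 * (r : ℝ) - 6) / 3) * H₂ ^ (2 * (r : ℝ) / 3) := by
      have h7 : 0 ≤ H₂ := by linarith
      have h8 : 0 ≤ H₁ := by linarith
      positivity
    refine mul_le_mul_of_nonneg_right ?_ h6
    refine mul_le_mul_of_nonneg_right ?_ h5
    linarith

end Pool.Agent.Results.MP_e188f1_nt.AlmostAllPairs
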