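import Pool.Agent.Helper56.SW.Final

set_option autoImplicit false

open Pool.Agent.Helper56.SW

namespace Pool.Agent.Results.MP_e188f1_nt.ShortWords

/-- A bound for `N_q`, `q = 2 r`, valid for all `c`, all units and all `1 ≤ H₁ ≤ H₂ ≤ K c`, which
is the bound asked for as soon as `H₂ ≥ η c`, or `H₁ ^ (r - 1) ≤ H₂ ^ 2` and
`H₁ ^ r ≤ c H₂`. -/
theorem result (r : ℕ) (K ε η : ℝ) (hr : 1 ≤ r) (hK : 1 ≤ K) (hε : 0 < ε) (hη : 0 < η) :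
    ∃ C : ℝ, 0 < C ∧ ∀ (c : ℕ) (a₁ a₂ : (ZMod c)ˣ) (H₁ H₂ : ℝ), 1 ≤ c → 1 ≤ H₁ → H₁ ≤ H₂ →
      H₂ ≤ K * c →
      ((Nq (2 * r) c a₁ a₂ H₁ H₂ : ℝ) ≤ C * (c : ℝ) ^ ε * (H₂ ^ (r - 1) +
        (((c : ℝ) / H₂) ^ 2 + ((c : ℝ) / H₂) ^ 3 / H₁) * ((H₁ * H₂) ^ r / (c : ℝ) ^ 3))) ∧
      ((η * c ≤ H₂ ∨ (H₁ ^ (r - 1) ≤ H₂ ^ 2 ∧ H₁ ^ r ≤ c * H₂)) →
        (Nq (2 * r) c a₁ a₂ H₁ H₂ : ℝ) ≤ C * (c : ℝ) ^ ε *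
          (H₂ ^ (r - 1) + (H₁ * H₂) ^ r / (c : ℝ) ^ 3)) :=
  fn_Q1 r K ε η hr hK hε hη

end Pool.Agent.Results.MP_e188f1_nt.ShortWords
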