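import Pool.Agent.Helper28.SP.Final

set_option autoImplicit false

open Pool.Agent.Helper56.SW

namespace Pool.Agent.Results.MP_e188f1_nt.SpectralRange

/-- The bound asked for by Q1 for `N_q`, `q = 2 r`, in four ranges of `(H₁, H₂)` below `H₂ = c`,
together with the bound in terms of a parameter `t` from which it follows; valid for all `c` and
all units. -/
theorem result (r : ℕ) (K ε : ℝ) (hr : 1 ≤ r) (hK : 1 ≤ K) (hε : 0 < ε) :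
    ∃ C : ℝ, 0 < C ∧ ∀ (c : ℕ) (a₁ a₂ : (ZMod c)ˣ) (H₁ H₂ : ℝ), 1 ≤ c → 1 ≤ H₁ → H₁ ≤ H₂ →
      H₂ ≤ K * c →
      (∀ t : ℝ, 0 ≤ t →
        ((2 ≤ r ∧ (c : ℝ) ^ 2 / (H₁ * H₂ ^ 2) ≤ t ^ 2) ∨
          (4 ≤ r ∧ (c : ℝ) ^ 2 / H₂ ^ 3 ≤ t ^ 4) ∨
          (6 ≤ r ∧ (c : ℝ) ≤ H₂ ^ 2 ∧ (c : ℝ) / H₂ ^ 2 ≤ t ^ 6) ∨
          (∃ k : ℕ, 3 ≤ k ∧ k ≤ r ∧
            (c : ℝ) ^ 2 / (H₁ ^ k * H₂) + c / H₂ ^ 2 + (c : ℝ) ^ 2 / (H₁ * H₂ ^ 3) ≤ t ^ k)) →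
        (Nq (2 * r) c a₁ a₂ H₁ H₂ : ℝ) ≤ C * (c : ℝ) ^ ε * (H₂ ^ (r - 1) +
          (H₁ * H₂) ^ r / (c : ℝ) ^ 3 * (1 + c * t ^ r))) ∧
      (((2 ≤ r ∧ (c : ℝ) ^ (2 * r + 2) ≤ (H₁ * H₂ ^ 2) ^ r) ∨
          (4 ≤ r ∧ (c : ℝ) ^ (2 * r + 4) ≤ H₂ ^ (3 * r)) ∨
          (6 ≤ r ∧ (c : ℝ) ^ (r + 6) ≤ H₂ ^ (2 * r)) ∨
          (∃ k : ℕ, 3 ≤ k ∧ k ≤ r ∧ (c : ℝ) ^ (r + k) ≤ H₂ ^ (2 * r) ∧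
            (c : ℝ) ^ (2 * r + k) ≤ (H₁ ^ k * H₂) ^ r ∧
            (c : ℝ) ^ (2 * r + k) ≤ (H₁ * H₂ ^ 3) ^ r)) →
        (Nq (2 * r) c a₁ a₂ H₁ H₂ : ℝ) ≤ C * (c : ℝ) ^ ε *
          (H₂ ^ (r - 1) + (H₁ * H₂) ^ r / (c : ℝ) ^ 3)) :=
  Pool.Agent.Helper28.SP.fin2 Pool.Agent.Helper28.SP.fin_St r K ε hr hK hε

end Pool.Agent.Results.MP_e188f1_nt.SpectralRange
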